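import Mathlib
import Pool.Agent.R332.SepLiou

/-!
# Liouville matrices kept Liouville by injective continuous maps
-/

open Metric Set Filter Topology

namespace Pool.Agent.Results.MP_7a8bd8_nt.PositiveDimension

/-- the vector `A q - p` -/
def form {m n : ℕ} (A : Fin m → Fin n → ℝ) (q : Fin n → ℤ) (p : Fin m → ℤ) : Fin m → ℝ :=
  fun i => (∑ j, A i j * (q j : ℝ)) - (p i : ℝ)

/-- an integer vector as a real vector -/
def toReal {n : ℕ} (q : Fin n → ℤ) : Fin n → ℝ := fun j => (q j : ℝ)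

/-- Liouville matrices (supremum norms): (1) `A q ≠ p` unless `q` and `p` are both zero; (2) for
every `N > 0` there are `p` and `q` with `‖q‖ > 1` and `‖A q - p‖ < ‖q‖ ^ (-N)` -/
def IsLiouville {m n : ℕ} (A : Fin m → Fin n → ℝ) : Prop :=
  (∀ (q : Fin n → ℤ) (p : Fin m → ℤ), (q ≠ 0 ∨ p ≠ 0) → form A q p ≠ 0) ∧
    ∀ N : ℝ, 0 < N → ∃ (p : Fin m → ℤ) (q : Fin n → ℤ), 1 < ‖toReal q‖ ∧
      ‖form A q p‖ < ‖toReal q‖ ^ (-N)

/-- the Liouville matrices in `U` which every `f k` sends to a Liouville matrix -/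
def E {m n : ℕ} (U : Set (Fin m → Fin n → ℝ))
    (f : ℕ → (Fin m → Fin n → ℝ) → (Fin m → Fin n → ℝ)) : Set (Fin m → Fin n → ℝ) :=
  {A | A ∈ U ∧ IsLiouville A ∧ ∀ k, IsLiouville (f k A)}

variable {m n : ℕ}

/-- the closed sets whose complements intersect in the Liouville matrices -/
def bad : ℕ ⊕ ((Fin n → ℤ) × (Fin m → ℤ)) → Set (Fin m → Fin n → ℝ)
  | Sum.inl N => {B | ¬ ∃ (p : Fin m → ℤ) (q : Fin n → ℤ), 1 < ‖toReal q‖ ∧
      ‖form B q p‖ < ‖toReal q‖ ^ (-(N : ℝ))}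
  | Sum.inr c => {B | (c.1 ≠ 0 ∨ c.2 ≠ 0) ∧ form B c.1 c.2 = 0}

theorem continuous_form (q : Fin n → ℤ) (p : Fin m → ℤ) :
    Continuous fun A : Fin m → Fin n → ℝ => form A q p :=
  continuous_pi fun i => R332.SepLiou.continuous_row q p i

theorem bad_closed (c : ℕ ⊕ ((Fin n → ℤ) × (Fin m → ℤ))) :
    IsClosed (bad c : Set (Fin m → Fin n → ℝ)) := by
  rcases c with N | c
  · rw [← isOpen_compl_iff]
    have : (bad (Sum.inl N) : Set (Fin m → Fin n → ℝ))ᶜ =
        ⋃ (p : Fin m → ℤ) (q : Fin n → ℤ), {B | 1 < ‖toReal q‖ ∧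
          ‖form B q p‖ < ‖toReal q‖ ^ (-(N : ℝ))} := by
      ext B
      simp [bad]
    rw [this]
    refine isOpen_iUnion fun p => isOpen_iUnion fun q => ?_
    exact isOpen_const.inter (isOpen_lt (continuous_form q p).norm continuous_const)
  · exact isClosed_const.inter (isClosed_eq (continuous_form c.1 c.2) continuous_const)

theorem liouville_of_not_bad (A : Fin m → Fin n → ℝ)
    (h : ∀ c : ℕ ⊕ ((Fin n → ℤ) × (Fin m → ℤ)), A ∉ bad c) : IsLiouville A := by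
  constructor
  · intro q p hqp h0
    exact h (Sum.inr (q, p)) ⟨hqp, h0⟩
  · intro N _
    obtain ⟨K, hK⟩ := exists_nat_ge N
    have h1 := h (Sum.inl K)
    simp only [bad, mem_ofPred_eq, not_not] at h1
    obtain ⟨p, q, hq, h2⟩ := h1
    refine ⟨p, q, hq, h2.trans_le ?_⟩
    exact Real.rpow_le_rpow_of_exponent_le hq.le (by linarith)

/-- matrices with a rational column are not in the first bad sets -/
theorem column_not_bad (N : ℕ) (A : Fin m → Fin n → ℝ) (l : Fin n)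
    (h : ∀ i, ∃ c : ℚ, A i l = c) : A ∉ bad (Sum.inl N) := by
  classical
  choose c hc using h
  simp only [bad, mem_ofPred_eq, not_not]
  set t : ℤ := 2 * ∏ i, ((c i).den : ℤ) with ht
  refine ⟨fun i => 2 * (∏ i' ∈ Finset.univ.erase i, ((c i').den : ℤ)) * (c i).num,
    Pi.single l t, ?_, ?_⟩
  · have h1 : ‖toReal (Pi.single l t : Fin n → ℤ) l‖ ≤ ‖toReal (Pi.single l t : Fin n → ℤ)‖ :=
      norm_le_pi_norm _ l
    have h2 : (1 : ℤ) ≤ ∏ i, ((c i).den : ℤ) := by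
      have : (0 : ℤ) < ∏ i, ((c i).den : ℤ) := Finset.prod_pos fun i _ => by
        exact_mod_cast (c i).den_pos
      omega
    have h3 : (2 : ℝ) ≤ (t : ℝ) := by
      rw [ht]; exact_mod_cast (by omega : (2 : ℤ) ≤ 2 * ∏ i, ((c i).den : ℤ))
    have h4 : ‖toReal (Pi.single l t : Fin n → ℤ) l‖ = (t : ℝ) := by
      simp only [toReal, Pi.single_eq_same, Real.norm_eq_abs]
      exact abs_of_pos (by linarith)
    linarith
  · have h0 : form A (Pi.single l t) (fun i => 2 * (∏ i' ∈ Finset.univ.erase i,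
        ((c i').den : ℤ)) * (c i).num) = 0 := by
      funext i
      unfold form
      rw [Finset.sum_eq_single l]
      · rw [Pi.single_eq_same, hc i, ht, ← Finset.mul_prod_erase Finset.univ
          (fun i => ((c i).den : ℤ)) (Finset.mem_univ i)]
        have h5 : (c i : ℝ) * ((c i).den : ℝ) = ((c i).num : ℝ) := by
          exact_mod_cast Rat.mul_den_eq_num (c i)
        push_cast
        rw [Pi.zero_apply]
        linear_combination (2 * ∏ i' ∈ Finset.univ.erase i, ((c i').den : ℝ)) * h5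
      · intro j _ hj
        rw [Pi.single_eq_of_ne hj, Int.cast_zero, mul_zero]
      · simp
    rw [h0, norm_zero]
    have h1 : ‖toReal (Pi.single l t : Fin n → ℤ) l‖ ≤ ‖toReal (Pi.single l t : Fin n → ℤ)‖ :=
      norm_le_pi_norm _ l
    have h2 : (0 : ℤ) < ∏ i, ((c i).den : ℤ) := Finset.prod_pos fun i _ => by
      exact_mod_cast (c i).den_pos
    have h3 : (0 : ℝ) < (t : ℝ) := by
      rw [ht]; exact_mod_cast (by omega : (0 : ℤ) < 2 * ∏ i, ((c i).den : ℤ))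
    have h4 : ‖toReal (Pi.single l t : Fin n → ℤ) l‖ = (t : ℝ) := by
      simp only [toReal, Pi.single_eq_same, Real.norm_eq_abs]
      exact abs_of_pos h3
    exact Real.rpow_pos_of_pos (by linarith) _

/-- the heights where a piece of the hyperplane is mapped into a rational subspace -/
def badHeights (U : Set (Fin m → Fin n → ℝ)) (f : (Fin m → Fin n → ℝ) → (Fin m → Fin n → ℝ))
    (i₀ : Fin m) (j₀ : Fin n) (q : Fin n → ℤ) (p : Fin m → ℤ) : Set ℝ :=
  {y | (q ≠ 0 ∨ p ≠ 0) ∧ ∃ (a : Fin m → Fin n → ℝ) (r : ℝ), 0 < r ∧ ball a r ⊆ U ∧ a i₀ j₀ = y ∧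
    ∀ A ∈ ball a r, A i₀ j₀ = a i₀ j₀ → form (f A) q p = 0}

theorem badHeights_countable {U : Set (Fin m → Fin n → ℝ)}
    (f : (Fin m → Fin n → ℝ) → (Fin m → Fin n → ℝ)) (hc : ContinuousOn f U) (hi : InjOn f U)
    (i₀ : Fin m) (j₀ : Fin n) (q : Fin n → ℤ) (p : Fin m → ℤ) :
    (badHeights U f i₀ j₀ q p).Countable := by
  by_cases hq : q = 0
  · convert Set.countable_empty
    ext y
    simp only [badHeights, mem_ofPred_eq, mem_empty_iff_false, iff_false]
    rintro ⟨hqp, a, r, hr, hball, hay, h⟩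
    rcases hqp with h1 | h1
    · exact h1 hq
    · apply h1
      have h2 := h a (mem_ball_self hr) rfl
      funext i
      have h3 := congrFun h2 i
      simp only [form, hq, Pi.zero_apply, Int.cast_zero, mul_zero, Finset.sum_const_zero,
        zero_sub, neg_eq_zero] at h3
      exact_mod_cast h3
  by_cases hm : ∀ i : Fin m, i = i₀
  swap
  · push Not at hm
    obtain ⟨i₁, hi₁⟩ := hm
    convert Set.countable_empty
    ext y
    simp only [badHeights, mem_ofPred_eq, mem_empty_iff_false, iff_false]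
    rintro ⟨-, a, r, hr, hball, hay, h⟩
    exact R332.SepLiou.rows_hit f hc hi i₀ j₀ a r hr hball i₁ i₀ hi₁ q p hq
      fun A hA hA1 i => congrFun (h A hA hA1) i
  -- one row
  have hex : ∀ y ∈ badHeights U f i₀ j₀ q p, ∃ O : Set (Fin m → Fin n → ℝ), IsOpen O ∧
      (∃ z ∈ O, R332.SepLiou.row q p z i₀ = 0) ∧ ∀ z ∈ O, R332.SepLiou.row q p z i₀ = 0 →
        ∃ A ∈ U, A i₀ j₀ = y ∧ f A = z := by
    rintro y ⟨-, a, r, hr, hball, rfl, h⟩
    obtain ⟨O, hO, haO, hO2⟩ := R332.SepLiou.row_open f hc hi i₀ j₀ a r hr hball hm q p hq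
      fun A hA hA1 => congrFun (h A hA hA1) i₀
    refine ⟨O, hO, ⟨f a, haO, congrFun (h a (mem_ball_self hr) rfl) i₀⟩, fun z hz hz0 => ?_⟩
    obtain ⟨A, hA1, hA2, hA3⟩ := hO2 z hz hz0
    exact ⟨A, hball hA1, hA2, hA3⟩
  choose! O hO hne hO2 using hex
  let Z : Type := {z : Fin m → Fin n → ℝ // R332.SepLiou.row q p z i₀ = 0}
  refine Set.PairwiseDisjoint.countable_of_isOpen (α := Z)
    (s := fun y => (Subtype.val : Z → (Fin m → Fin n → ℝ)) ⁻¹' O y) ?_ ?_ ?_
  · intro y hy y' hy' hyy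
    refine Set.disjoint_left.2 fun z hz hz' => hyy ?_
    obtain ⟨A, hA1, hA2, hA3⟩ := hO2 y hy z.1 hz z.2
    obtain ⟨A', hA1', hA2', hA3'⟩ := hO2 y' hy' z.1 hz' z.2
    have := hi hA1 hA1' (hA3.trans hA3'.symm)
    rw [← hA2, ← hA2', this]
  · intro y hy
    exact (hO y hy).preimage continuous_subtype_val
  · intro y hy
    obtain ⟨z, hz, hz0⟩ := hne y hy
    exact ⟨⟨z, hz0⟩, hz⟩

/-- the fibres of `E` over all but countably many values of an entry are non-empty -/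
theorem fibre (l₀ l₁ : Fin n) (hl : l₀ ≠ l₁) {U : Set (Fin m → Fin n → ℝ)} (hU : IsOpen U)
    (f : ℕ → (Fin m → Fin n → ℝ) → (Fin m → Fin n → ℝ))
    (hf : ∀ k, ContinuousOn (f k) U ∧ InjOn (f k) U) (i₀ : Fin m) (j₀ : Fin n)
    (a : Fin m → Fin n → ℝ) (r : ℝ) (hr : 0 < r) (hball : closedBall a r ⊆ U) :
    ∃ T : Set ℝ, T.Countable ∧ ∀ y, |y - a i₀ j₀| < r → y ∉ T → ∃ A ∈ E U f, A i₀ j₀ = y := by
  let g : Option ℕ → (Fin m → Fin n → ℝ) → (Fin m → Fin n → ℝ)
    | none => id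
    | some k => f k
  have hg : ∀ k, ContinuousOn (g k) U ∧ InjOn (g k) U := by
    rintro (_ | k)
    · exact ⟨continuousOn_id, injOn_id _⟩
    · exact hf k
  refine ⟨⋃ (k : Option ℕ) (c : (Fin n → ℤ) × (Fin m → ℤ)), badHeights U (g k) i₀ j₀ c.1 c.2,
    Set.countable_iUnion fun k => Set.countable_iUnion fun c =>
      badHeights_countable (g k) (hg k).1 (hg k).2 i₀ j₀ c.1 c.2, ?_⟩
  intro y hy hyT
  set ψ := R332.SepLiou.setEntry (m := m) (n := n) i₀ j₀ y with hψ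
  have hψc : Continuous ψ := R332.SepLiou.continuous_setEntry i₀ j₀ y
  -- the open dense sets
  let G : Option ℕ × (ℕ ⊕ ((Fin n → ℤ) × (Fin m → ℤ))) → Set (Fin m → Fin n → ℝ) := fun c =>
    {A | ψ A ∈ closedBall a r ∩ (g c.1) ⁻¹' bad c.2}ᶜ
  have hG1 : ∀ c, IsOpen (G c) := by
    intro c
    rw [isOpen_compl_iff]
    exact (((hg c.1).1.mono hball).preimage_isClosed_of_isClosed isClosed_closedBall
      (bad_closed c.2)).preimage hψc
  have hG2 : ∀ c, Dense (G c) := by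
    rintro ⟨k, c⟩
    rw [dense_iff_inter_open]
    rintro W hW ⟨A₀, hA₀⟩
    by_contra hcon
    rw [Set.not_nonempty_iff_eq_empty] at hcon
    have hin : ∀ A ∈ W, ψ A ∈ closedBall a r ∧ g k (ψ A) ∈ bad c := by
      intro A hA
      by_contra h
      have : A ∈ W ∩ G (k, c) := ⟨hA, h⟩
      rw [hcon] at this
      exact this
    obtain ⟨ε, hε, hεW⟩ := Metric.isOpen_iff.1 hW A₀ hA₀
    obtain ⟨δ, hδ, hδU⟩ := Metric.isOpen_iff.1 hU (ψ A₀) (hball (hin A₀ hA₀).1)
    set s := min ε δ with hs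
    have hs0 : 0 < s := lt_min hε hδ
    have hy0 : (ψ A₀) i₀ j₀ = y := R332.SepLiou.setEntry_same i₀ j₀ y A₀
    have hsU : ball (ψ A₀) s ⊆ U := (ball_subset_ball (min_le_right _ _)).trans hδU
    have hD : ∀ A ∈ ball (ψ A₀) s, A i₀ j₀ = (ψ A₀) i₀ j₀ → g k A ∈ bad c := by
      intro A hA hAy
      rw [hy0] at hAy
      have h1 : R332.SepLiou.setEntry i₀ j₀ (A₀ i₀ j₀) A ∈ ball A₀ ε := by
        rw [R332.SepLiou.mem_ball_iff hε]
        intro i j
        have h2 := (R332.SepLiou.mem_ball_iff hs0).1 hA i j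
        show |(if i = i₀ ∧ j = j₀ then A₀ i₀ j₀ else A i j) - A₀ i j| < ε
        have h3 : (ψ A₀) i j = if i = i₀ ∧ j = j₀ then y else A₀ i j := rfl
        rw [h3] at h2
        split_ifs with h
        · rw [h.1, h.2, sub_self, abs_zero]; exact hε
        · rw [if_neg h] at h2
          exact h2.trans_le (min_le_left _ _)
      have h4 := (hin _ (hεW h1)).2
      have h5 : ψ (R332.SepLiou.setEntry i₀ j₀ (A₀ i₀ j₀) A) = A := by
        rw [hψ, R332.SepLiou.setEntry_setEntry, ← hAy, R332.SepLiou.setEntry_self]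
      rwa [h5] at h4
    rcases c with N | c
    · exact R332.SepLiou.column_hit (g k) (hg k).1 (hg k).2 i₀ j₀ (ψ A₀) s hs0 hsU l₀ l₁ hl
        (bad (Sum.inl N)) (fun A l h => column_not_bad N A l h) hD
    · apply hyT
      refine Set.mem_iUnion.2 ⟨k, Set.mem_iUnion.2 ⟨c, ?_⟩⟩
      have h1 := hD (ψ A₀) (mem_ball_self hs0) rfl
      exact ⟨h1.1, ψ A₀, s, hs0, hsU, hy0, fun A hA hA1 => (hD A hA hA1).2⟩
  have hdense := dense_iInter_of_isOpen hG1 hG2
  obtain ⟨A, hA1, hA2⟩ := hdense.inter_open_nonempty (ball a r) isOpen_ball ⟨a, mem_ball_self hr⟩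
  rw [Set.mem_iInter] at hA2
  have hψA : ψ A ∈ ball a r := by
    rw [R332.SepLiou.mem_ball_iff hr]
    intro i j
    have h2 := (R332.SepLiou.mem_ball_iff hr).1 hA1 i j
    show |(if i = i₀ ∧ j = j₀ then y else A i j) - a i j| < r
    split_ifs with h
    · rw [h.1, h.2]; exact hy
    · exact h2
  have hnb : ∀ k c, g k (ψ A) ∉ bad c := by
    intro k c h
    exact hA2 (k, c) ⟨ball_subset_closedBall hψA, h⟩
  refine ⟨ψ A, ⟨hball (ball_subset_closedBall hψA), ?_, fun k => ?_⟩,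
    R332.SepLiou.setEntry_same i₀ j₀ y A⟩
  · exact liouville_of_not_bad _ (hnb none)
  · exact liouville_of_not_bad _ (hnb (some k))

/-- the set `E` has dimension at least `1` -/
theorem one_le (l₀ l₁ : Fin n) (hl : l₀ ≠ l₁) (i₀ : Fin m) {U : Set (Fin m → Fin n → ℝ)}
    (hU : IsOpen U) (hne : U.Nonempty) (f : ℕ → (Fin m → Fin n → ℝ) → (Fin m → Fin n → ℝ))
    (hf : ∀ k, ContinuousOn (f k) U ∧ InjOn (f k) U) : 1 ≤ dimH (E U f) := by
  obtain ⟨a, ha⟩ := hne
  obtain ⟨r, hr, hball⟩ := Metric.nhds_basis_closedBall.mem_iff.1 (hU.mem_nhds ha)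
  obtain ⟨T, hT, h⟩ := fibre l₀ l₁ hl hU f hf i₀ l₀ a r hr hball
  let π : (Fin m → Fin n → ℝ) → ℝ := fun A => A i₀ l₀
  have hπ : LipschitzWith 1 π := by
    refine LipschitzWith.of_dist_le_mul fun A B => ?_
    rw [NNReal.coe_one, one_mul]
    exact (dist_le_pi_dist (A i₀) (B i₀) l₀).trans (dist_le_pi_dist A B i₀)
  have h1 : dimH (π '' E U f) ≤ dimH (E U f) := hπ.dimH_image_le _
  have h2 : ball (a i₀ l₀) r ⊆ π '' E U f ∪ T := by
    intro y hy
    rw [mem_ball, Real.dist_eq] at hy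
    by_cases hyT : y ∈ T
    · exact Or.inr hyT
    · obtain ⟨A, hA, hA1⟩ := h y hy hyT
      exact Or.inl ⟨A, hA, hA1⟩
  have h3 : dimH (ball (a i₀ l₀) r : Set ℝ) = 1 := by
    rw [Real.dimH_of_mem_nhds (ball_mem_nhds (a i₀ l₀) hr)]
    simp
  have h4 : (1 : ENNReal) ≤ dimH (π '' E U f ∪ T) := by
    rw [← h3]
    exact dimH_mono h2
  rw [dimH_union, hT.dimH_zero] at h4
  have h5 : (1 : ENNReal) ≤ dimH (π '' E U f) := by
    rcases le_max_iff.1 h4 with h | h
    · exact h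
    · exact absurd h (by simp)
  exact h5.trans h1

/-- The property in question holds for all `m ≥ 1` and `n ≥ 2`; the dimension is at least `1`. -/
theorem result (m n : ℕ) (hm : 1 ≤ m) (hn : 2 ≤ n) (U : Set (Fin m → Fin n → ℝ))
    (hU : IsOpen U) (hne : U.Nonempty) (f : ℕ → (Fin m → Fin n → ℝ) → (Fin m → Fin n → ℝ))
    (hf : ∀ k, ContinuousOn (f k) U ∧ Set.InjOn (f k) U) : 1 ≤ dimH (E U f) :=
  one_le (⟨0, by omega⟩ : Fin n) ⟨1, by omega⟩ (by simp) ⟨0, hm⟩ hU hne f hf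

end Pool.Agent.Results.MP_7a8bd8_nt.PositiveDimension
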